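import Mathlib

/-! Real-variable part: the function `k(t) = t (2 - log t)` near `0`, its inverse `θ` and the profile
`φ = (π/2) |θ|`, which is `C¹` but not `C^{1,α}` at `0`. -/

set_option autoImplicit false

open Set Filter Topology Real

namespace Pool.Agent.Y310.FB

/-- `m0 t = t (1 - log t)`. -/
noncomputable def m0 (t : ℝ) : ℝ := t * (1 - log t)

/-- truncation to `[-1,1]`. -/
noncomputable def clamp (t : ℝ) : ℝ := max (-1) (min 1 t)

/-- The increasing homeomorphism `k` of the line, `k t = t (2 - log t)` for `|t| ≤ 1`. -/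
noncomputable def k (t : ℝ) : ℝ := t + m0 (clamp t)

lemma m0_cont : Continuous m0 := by
  have h : m0 = fun t => t - t * log t := by funext t; unfold m0; ring
  rw [h]
  exact continuous_id.sub continuous_mul_log

lemma clamp_cont : Continuous clamp := by unfold clamp; fun_prop

lemma clamp_mono : Monotone clamp := fun a b h => by
  unfold clamp; exact max_le_max le_rfl (min_le_min le_rfl h)

lemma clamp_mem (t : ℝ) : clamp t ∈ Icc (-1 : ℝ) 1 := by
  unfold clamp
  exact ⟨le_max_left _ _, max_le (by norm_num) (min_le_left _ _)⟩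

lemma clamp_eq {t : ℝ} (h : |t| ≤ 1) : clamp t = t := by
  unfold clamp
  rw [min_eq_right (abs_le.1 h).2, max_eq_right (abs_le.1 h).1]

lemma m0_neg (t : ℝ) : m0 (-t) = - m0 t := by unfold m0; rw [log_neg_eq_log]; ring

lemma m0_deriv {t : ℝ} (ht : t ≠ 0) : HasDerivAt m0 (-log t) t := by
  have h := (hasDerivAt_id t).mul ((hasDerivAt_log ht).const_sub 1)
  refine h.congr_deriv ?_
  simp only [id]
  field_simp
  ring

lemma m0_mono_pos : MonotoneOn m0 (Icc 0 1) := by
  apply monotoneOn_of_deriv_nonneg (convex_Icc 0 1) m0_cont.continuousOn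
  · intro x hx
    rw [interior_Icc] at hx
    exact (m0_deriv hx.1.ne').differentiableAt.differentiableWithinAt
  · intro x hx
    rw [interior_Icc] at hx
    rw [(m0_deriv hx.1.ne').deriv]
    have := log_nonpos hx.1.le hx.2.le
    linarith

lemma m0_mono : MonotoneOn m0 (Icc (-1) 1) := by
  have h0 : m0 0 = 0 := by simp [m0]
  intro a ha b hb hab
  rcases le_total 0 a with h | h
  · exact m0_mono_pos ⟨h, ha.2⟩ ⟨h.trans hab, hb.2⟩ hab
  · rcases le_total 0 b with h' | h'
    · have h1 : m0 0 ≤ m0 b := m0_mono_pos ⟨le_rfl, by norm_num⟩ ⟨h', hb.2⟩ h'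
      have h2 : m0 0 ≤ m0 (-a) := m0_mono_pos ⟨le_rfl, by norm_num⟩
        ⟨by linarith, by linarith [ha.1]⟩ (by linarith)
      rw [m0_neg] at h2
      linarith
    · have h2 : m0 (-b) ≤ m0 (-a) := m0_mono_pos ⟨by linarith, by linarith [hb.1]⟩
        ⟨by linarith, by linarith [ha.1]⟩ (by linarith)
      rw [m0_neg, m0_neg] at h2
      linarith

lemma k_cont : Continuous k := continuous_id.add (m0_cont.comp clamp_cont)

lemma k_expand {a b : ℝ} (h : a ≤ b) : b - a ≤ k b - k a := by
  have := m0_mono (clamp_mem a) (clamp_mem b) (clamp_mono h)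
  unfold k
  linarith

lemma k_strictMono : StrictMono k := fun a b h => by
  have := k_expand h.le
  linarith

lemma k_eq {t : ℝ} (h : |t| ≤ 1) : k t = t * (2 - log t) := by
  unfold k
  rw [clamp_eq h, m0]; ring

lemma k_zero : k 0 = 0 := by rw [k_eq (by simp)]; simp

lemma k_one : k 1 = 2 := by rw [k_eq (by simp)]; simp

lemma k_neg (t : ℝ) : k (-t) = - k t := by
  have h : clamp (-t) = - clamp t := by
    unfold clamp
    rcases le_total t 1 with h1 | h1 <;> rcases le_total (-1) t with h2 | h2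
    · rw [min_eq_right (by linarith), max_eq_right (by linarith), min_eq_right h1,
        max_eq_right h2]
    · rw [min_eq_left (by linarith), max_eq_right (by linarith), min_eq_right h1,
        max_eq_left h2]; norm_num
    · rw [min_eq_right (by linarith), max_eq_left (by linarith), min_eq_left h1,
        max_eq_right (by linarith)]
    · linarith
  unfold k
  rw [h, m0_neg]; ring

lemma k_surj : Function.Surjective k := by
  apply k_cont.surjective
  · apply tendsto_atTop_mono' atTop _ tendsto_id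
    filter_upwards [eventually_ge_atTop 0] with t ht
    have := k_expand ht
    rw [k_zero] at this
    simpa using this
  · apply tendsto_atBot_mono' atBot _ tendsto_id
    filter_upwards [eventually_le_atBot 0] with t ht
    have := k_expand ht
    rw [k_zero] at this
    simp only [id]
    linarith

/-- The order isomorphism given by `k`. -/
noncomputable def kIso : ℝ ≃o ℝ := k_strictMono.orderIsoOfSurjective k k_surj

/-- The inverse of `k`. -/
noncomputable def θ (y : ℝ) : ℝ := kIso.symm y

lemma k_θ (y : ℝ) : k (θ y) = y := kIso.apply_symm_apply y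

lemma θ_k (t : ℝ) : θ (k t) = t := kIso.symm_apply_apply t

lemma θ_cont : Continuous θ := kIso.symm.continuous

lemma θ_strictMono : StrictMono θ := kIso.symm.strictMono

lemma θ_zero : θ 0 = 0 := by
  have := θ_k 0
  rwa [k_zero] at this

lemma θ_two : θ 2 = 1 := by
  have := θ_k 1
  rwa [k_one] at this

lemma θ_neg (y : ℝ) : θ (-y) = - θ y := by
  have := θ_k (-(θ y))
  rw [k_neg, k_θ] at this
  exact this

lemma θ_eq_zero {y : ℝ} : θ y = 0 ↔ y = 0 :=
  ⟨fun h => by have := k_θ y; rw [h, k_zero] at this; exact this.symm,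
    fun h => by rw [h, θ_zero]⟩

lemma θ_lip (a b : ℝ) : |θ a - θ b| ≤ |a - b| := by
  rcases le_total a b with h | h
  · have h1 := θ_strictMono.monotone h
    have h2 := k_expand h1
    rw [k_θ, k_θ] at h2
    rw [abs_sub_comm, abs_of_nonneg (sub_nonneg.2 h1), abs_sub_comm a b,
      abs_of_nonneg (sub_nonneg.2 h)]
    exact h2
  · have h1 := θ_strictMono.monotone h
    have h2 := k_expand h1
    rw [k_θ, k_θ] at h2
    rw [abs_of_nonneg (sub_nonneg.2 h1), abs_of_nonneg (sub_nonneg.2 h)]
    exact h2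

lemma abs_θ_lt_one {y : ℝ} (h : |y| < 2) : |θ y| < 1 := by
  rw [abs_lt] at h ⊢
  constructor
  · have := θ_strictMono h.1
    rwa [θ_neg, θ_two] at this
  · have := θ_strictMono h.2
    rwa [θ_two] at this

/-- The graph function: `D = {x > φ(y)}`. -/
noncomputable def φ (y : ℝ) : ℝ := π / 2 * |θ y|

lemma φ_nonneg (y : ℝ) : 0 ≤ φ y := by unfold φ; positivity

lemma φ_zero : φ 0 = 0 := by simp [φ, θ_zero]

lemma φ_cont : Continuous φ := by unfold φ; exact continuous_const.mul θ_cont.abs

lemma φ_lip (a b : ℝ) : |φ a - φ b| ≤ π / 2 * |a - b| := by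
  unfold φ
  rw [← mul_sub, abs_mul, abs_of_pos (by positivity : (0 : ℝ) < π / 2)]
  have h1 := abs_abs_sub_abs_le_abs_sub (θ a) (θ b)
  have h2 := θ_lip a b
  have : (0 : ℝ) < π / 2 := by positivity
  nlinarith

lemma φ_mono_abs {a b : ℝ} (h : |a| ≤ |b|) : φ a ≤ φ b := by
  have key : ∀ y, |θ y| = θ |y| := by
    intro y
    rcases le_total 0 y with h | h
    · have := θ_strictMono.monotone h
      rw [θ_zero] at this
      rw [abs_of_nonneg this, abs_of_nonneg h]
    · have := θ_strictMono.monotone h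
      rw [θ_zero] at this
      rw [abs_of_nonpos this, abs_of_nonpos h, θ_neg]
  unfold φ
  rw [key, key]
  have := θ_strictMono.monotone h
  have hp : (0 : ℝ) < π / 2 := by positivity
  nlinarith

/-! ### Derivative of the profile -/

lemma k_deriv {t : ℝ} (h0 : t ≠ 0) (h : |t| < 1) : HasDerivAt k (1 - log t) t := by
  have h1 : HasDerivAt (fun t => t + m0 t) (1 + -log t) t := (hasDerivAt_id t).add (m0_deriv h0)
  have h2 : k =ᶠ[𝓝 t] fun t => t + m0 t := by
    have : {s : ℝ | |s| < 1} ∈ 𝓝 t := (isOpen_lt continuous_abs continuous_const).mem_nhds h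
    filter_upwards [this] with s hs
    unfold k
    rw [clamp_eq (le_of_lt hs)]
  exact (h1.congr_of_eventuallyEq h2).congr_deriv (by ring)

lemma one_sub_log_pos {t : ℝ} (h : |t| < 1) : 1 ≤ 1 - log t := by
  have := log_nonpos (abs_nonneg t) h.le
  rw [log_abs] at this
  linarith

lemma θ_deriv {y : ℝ} (h0 : y ≠ 0) (h : |y| < 2) : HasDerivAt θ (1 - log (θ y))⁻¹ y := by
  have h1 := abs_θ_lt_one h
  refine HasDerivAt.of_local_left_inverse θ_cont.continuousAt
    (k_deriv (fun h' => h0 (θ_eq_zero.1 h')) h1) ?_ (Eventually.of_forall k_θ)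
  have := one_sub_log_pos h1
  linarith

/-- The derivative of `φ`. -/
noncomputable def dφ (y : ℝ) : ℝ := π / 2 * (SignType.sign (θ y) * (1 - log (θ y))⁻¹)

lemma log_tendsto : Tendsto (fun t : ℝ => (1 - log t)⁻¹) (𝓝[≠] 0) (𝓝 0) := by
  apply tendsto_inv_atTop_zero.comp
  have := tendsto_log_nhdsNE_zero
  exact tendsto_atTop_add_const_left _ 1 (tendsto_neg_atBot_atTop.comp this)

lemma θ_tendsto : Tendsto θ (𝓝[≠] 0) (𝓝[≠] 0) := by
  apply tendsto_nhdsWithin_of_tendsto_nhds_of_eventually_within
  · have := θ_cont.tendsto 0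
    rw [θ_zero] at this
    exact this.mono_left nhdsWithin_le_nhds
  · filter_upwards [self_mem_nhdsWithin] with y hy
    exact fun h => hy (θ_eq_zero.1 h)

lemma dφ_zero : dφ 0 = 0 := by simp [dφ, θ_zero]

lemma abs_sign_le (x : ℝ) : |((SignType.sign x : SignType) : ℝ)| ≤ 1 := by
  rcases lt_trichotomy x 0 with h | h | h <;> simp [h]

lemma dφ_tendsto : Tendsto dφ (𝓝[≠] 0) (𝓝 0) := by
  have h1 : Tendsto (fun y => π / 2 * |(1 - log (θ y))⁻¹|) (𝓝[≠] 0) (𝓝 (π / 2 * |0|)) :=
    ((log_tendsto.comp θ_tendsto).abs).const_mul _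
  rw [abs_zero, mul_zero] at h1
  apply squeeze_zero_norm _ h1
  intro y
  unfold dφ
  rw [Real.norm_eq_abs, abs_mul, abs_mul, abs_of_pos (by positivity : (0 : ℝ) < π / 2)]
  have := abs_sign_le (θ y)
  have h2 := abs_nonneg ((1 - log (θ y))⁻¹)
  have h3 : (0 : ℝ) < π / 2 := by positivity
  have h4 : |((SignType.sign (θ y) : SignType) : ℝ)| * |(1 - log (θ y))⁻¹| ≤
    1 * |(1 - log (θ y))⁻¹| := mul_le_mul_of_nonneg_right this h2
  nlinarith

lemma φ_deriv_ne {y : ℝ} (h0 : y ≠ 0) (h : |y| < 2) : HasDerivAt φ (dφ y) y := by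
  have hθ : θ y ≠ 0 := fun h' => h0 (θ_eq_zero.1 h')
  have h1 := (hasDerivAt_abs hθ).comp y (θ_deriv h0 h)
  exact (h1.const_mul (π / 2))

lemma φ_deriv {y : ℝ} (h : |y| < 2) : HasDerivAt φ (dφ y) y := by
  by_cases h0 : y = 0
  · subst h0
    rw [dφ_zero]
    -- θ(y)/y → 0
    rw [hasDerivAt_iff_isLittleO]
    simp only [φ_zero, sub_zero, smul_zero]
    have h1 : Tendsto (fun y => (φ y) / y) (𝓝[≠] 0) (𝓝 0) := by
      have h2 : Tendsto (fun y => π / 2 * (2 - log (θ y))⁻¹) (𝓝[≠] 0) (𝓝 (π / 2 * 0)) := by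
        apply Tendsto.const_mul
        apply tendsto_inv_atTop_zero.comp
        exact tendsto_atTop_add_const_left _ 2
          (tendsto_neg_atBot_atTop.comp (tendsto_log_nhdsNE_zero.comp θ_tendsto))
      rw [mul_zero] at h2
      apply squeeze_zero_norm' _ h2
      have h3 : {s : ℝ | |s| < 2} ∈ 𝓝[≠] (0 : ℝ) := mem_nhdsWithin_of_mem_nhds
        ((isOpen_lt continuous_abs continuous_const).mem_nhds (by simp))
      filter_upwards [h3, self_mem_nhdsWithin] with y hy hy0
      have h4 := abs_θ_lt_one hy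
      have h5 := one_sub_log_pos h4
      have h6 : y = θ y * (2 - log (θ y)) := by
        have := k_θ y
        rw [k_eq h4.le] at this
        exact this.symm
      have h7 : |y| = |θ y| * (2 - log (θ y)) := by
        conv_lhs => rw [h6]
        rw [abs_mul, abs_of_pos (by linarith : (0 : ℝ) < 2 - log (θ y))]
      have h8 : 0 < |θ y| := abs_pos.2 fun h' => hy0 (θ_eq_zero.1 h')
      rw [Real.norm_eq_abs, abs_div, h7]
      unfold φ
      rw [abs_mul, abs_abs, abs_of_pos (by positivity : (0 : ℝ) < π / 2)]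
      have h9 : (0 : ℝ) < 2 - log (θ y) := by linarith
      apply le_of_eq
      field_simp
    rw [Asymptotics.isLittleO_iff_tendsto' ?_]
    · have h2 : Tendsto (fun y => (φ y) / y) (𝓝 0) (𝓝 0) := by
        have h3 : Tendsto (fun y => (φ y) / y) (pure 0) (𝓝 0) := by
          rw [tendsto_pure_left]
          intro s hs
          simpa [φ_zero] using mem_of_mem_nhds hs
        have h4 := tendsto_sup.2 ⟨h1, h3⟩
        rwa [nhdsNE_sup_pure] at h4
      exact h2
    · filter_upwards with y hy
      rw [hy, φ_zero]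
  · exact φ_deriv_ne h0 h

lemma dφ_cont : ContinuousOn dφ (Ioo (-2) 2) := by
  intro y hy
  apply ContinuousAt.continuousWithinAt
  by_cases h0 : y = 0
  · subst h0
    rw [continuousAt_iff_punctured_nhds, dφ_zero]
    exact dφ_tendsto
  · have hθ : θ y ≠ 0 := fun h' => h0 (θ_eq_zero.1 h')
    have h1 := abs_θ_lt_one (abs_lt.2 hy)
    have h2 := one_sub_log_pos h1
    unfold dφ
    apply ContinuousAt.mul continuousAt_const
    apply ContinuousAt.mul
    · have h3 : (fun x => ((SignType.sign (θ x) : SignType) : ℝ)) =ᶠ[𝓝 y]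
          fun _ => ((SignType.sign (θ y) : SignType) : ℝ) := by
        rcases lt_or_gt_of_ne hθ with h | h
        · filter_upwards [θ_cont.continuousAt.eventually (gt_mem_nhds h)] with x hx
          rw [sign_neg hx, sign_neg h]
        · filter_upwards [θ_cont.continuousAt.eventually (lt_mem_nhds h)] with x hx
          rw [sign_pos hx, sign_pos h]
      exact continuousAt_const.congr h3.symm
    · apply ContinuousAt.inv₀
      · exact continuousAt_const.sub ((continuousAt_log hθ).comp θ_cont.continuousAt)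
      · linarith

lemma φ_contDiffOn : ContDiffOn ℝ 1 φ (Ioo (-2) 2) := by
  rw [show (1 : WithTop ℕ∞) = 0 + 1 by norm_num, contDiffOn_succ_iff_deriv_of_isOpen isOpen_Ioo]
  refine ⟨fun y hy => (φ_deriv (abs_lt.2 hy)).differentiableAt.differentiableWithinAt, ?_, ?_⟩
  · simp
  · rw [contDiffOn_zero]
    exact dφ_cont.congr fun y hy => (φ_deriv (abs_lt.2 hy)).deriv

end Pool.Agent.Y310.FB
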