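import Pool.Agent.Y310.FB1

/-! Complex part: the conformal map `F(w) = w (2 - log w)` of the right half disc. -/

set_option autoImplicit false

open Set Filter Topology Complex

namespace Pool.Agent.Y310.FB

/-- `F w = w (2 - log w)`. -/
noncomputable def F (w : ℂ) : ℂ := w * (2 - log w)

/-- open right half disc -/
def H : Set ℂ := {w | 0 < w.re ∧ ‖w‖ < 1}

/-- closed right half disc -/
def Hc : Set ℂ := {w | 0 ≤ w.re ∧ ‖w‖ ≤ 1}

lemma H_sub : H ⊆ Hc := fun _ h => ⟨h.1.le, h.2.le⟩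

lemma H_open : IsOpen H :=
  (isOpen_lt continuous_const continuous_re).inter (isOpen_lt continuous_norm continuous_const)

lemma Hc_compact : IsCompact Hc := by
  have : Hc = Metric.closedBall 0 1 ∩ {w : ℂ | 0 ≤ w.re} := by
    ext w; simp [Hc, and_comm]
  rw [this]
  exact (isCompact_closedBall 0 1).inter_right (isClosed_le continuous_const continuous_re)

lemma wlog_tendsto : Tendsto (fun w : ℂ => w * log w) (𝓝 0) (𝓝 0) := by
  have h1 : Tendsto (fun w : ℂ => |‖w‖ * Real.log ‖w‖| + ‖w‖ * Real.pi) (𝓝 0) (𝓝 0) := by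
    have : Continuous fun w : ℂ => |‖w‖ * Real.log ‖w‖| + ‖w‖ * Real.pi :=
      ((Real.continuous_mul_log.comp continuous_norm).abs).add
        (continuous_norm.mul continuous_const)
    have h := this.tendsto 0
    simpa using h
  apply squeeze_zero_norm _ h1
  intro w
  rw [norm_mul]
  have h2 : ‖log w‖ ≤ |Real.log ‖w‖| + Real.pi := by
    have h3 := Complex.norm_le_abs_re_add_abs_im (log w)
    rw [log_re, log_im] at h3
    linarith [abs_arg_le_pi w]
  calc ‖w‖ * ‖log w‖ ≤ ‖w‖ * (|Real.log ‖w‖| + Real.pi) :=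
        mul_le_mul_of_nonneg_left h2 (norm_nonneg _)
    _ = _ := by rw [mul_add, abs_mul, abs_of_nonneg (norm_nonneg w)]

lemma mem_slit {w : ℂ} (h : 0 ≤ w.re) (h0 : w ≠ 0) : w ∈ slitPlane := by
  rw [mem_slitPlane_iff]
  by_cases h1 : w.re = 0
  · right
    intro h2
    exact h0 (Complex.ext h1 h2)
  · left
    exact lt_of_le_of_ne h (Ne.symm h1)

lemma wlog_contOn : ContinuousOn (fun w : ℂ => w * log w) {w | 0 ≤ w.re} := by
  intro w hw
  by_cases h0 : w = 0
  · subst h0
    apply ContinuousAt.continuousWithinAt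
    unfold ContinuousAt
    simpa using wlog_tendsto
  · exact (continuousAt_id.mul (continuousAt_clog (mem_slit hw h0))).continuousWithinAt

lemma F_eq (w : ℂ) : F w = 2 * w - w * log w := by unfold F; ring

lemma F_contOn : ContinuousOn F {w | 0 ≤ w.re} := by
  have : F = fun w => 2 * w - w * log w := funext F_eq
  rw [this]
  exact (continuous_const.mul continuous_id).continuousOn.sub wlog_contOn

lemma F_deriv {w : ℂ} (h : w ∈ slitPlane) : HasStrictDerivAt F (1 - log w) w := by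
  have h1 := (hasStrictDerivAt_id w).mul ((hasStrictDerivAt_log h).const_sub 2)
  refine h1.congr_deriv ?_
  have : w ≠ 0 := slitPlane_ne_zero h
  simp only [id]
  field_simp
  ring

lemma re_one_sub_log {w : ℂ} (h : ‖w‖ ≤ 1) : 1 ≤ (1 - log w).re := by
  rw [sub_re, one_re, log_re]
  have := Real.log_nonpos (norm_nonneg w) h
  linarith

lemma H_slit {w : ℂ} (h : w ∈ H) : w ∈ slitPlane := mem_slitPlane_iff.2 (Or.inl h.1)

/-- inner product of complex numbers -/
noncomputable def ip (a b : ℂ) : ℝ := a.re * b.re + a.im * b.im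

lemma ip_le (a b : ℂ) : ip a b ≤ ‖a‖ * ‖b‖ := by
  have h1 : ip a b = (a * (starRingEnd ℂ) b).re := by
    simp [ip, mul_re]
  rw [h1]
  calc (a * (starRingEnd ℂ) b).re ≤ ‖a * (starRingEnd ℂ) b‖ := re_le_norm _
    _ = _ := by rw [norm_mul, norm_conj]

lemma expand_open {a b : ℂ} (ha : a ∈ H) (hb : b ∈ H) :
    ‖a - b‖ ^ 2 ≤ ip (F a - F b) (a - b) := by
  -- one-variable function
  have hseg : ∀ s ∈ Icc (0 : ℝ) 1, b + s * (a - b) ∈ H := by
    intro s hs
    have hconv : Convex ℝ H := by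
      have : H = Metric.ball 0 1 ∩ {w : ℂ | 0 < w.re} := by
        ext w; simp [H, and_comm]
      rw [this]
      exact (convex_ball 0 1).inter (convex_halfSpace_re_gt 0)
    have := hconv hb ha (sub_nonneg.2 hs.2) hs.1 (by ring)
    convert this using 1
    simp only [real_smul]
    push_cast
    ring
  let g : ℝ → ℝ := fun s => ip (F (b + s * (a - b))) (a - b)
  have hg : ∀ s ∈ Icc (0 : ℝ) 1, HasDerivAt g
      (ip ((1 - log (b + s * (a - b))) * (a - b)) (a - b)) s := by
    intro s hs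
    have h1 : HasDerivAt (fun s : ℝ => b + s * (a - b)) (a - b) s := by
      have := ((hasDerivAt_id s).ofReal_comp.mul_const (a - b)).const_add b
      simpa using this
    have h2 := (F_deriv (H_slit (hseg s hs))).hasDerivAt.comp s h1
    have hre : HasDerivAt (fun s : ℝ => (F (b + s * (a - b))).re)
        ((1 - log (b + s * (a - b))) * (a - b)).re s :=
      (reCLM.hasFDerivAt.comp_hasDerivAt s h2)
    have him : HasDerivAt (fun s : ℝ => (F (b + s * (a - b))).im)
        ((1 - log (b + s * (a - b))) * (a - b)).im s :=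
      (imCLM.hasFDerivAt.comp_hasDerivAt s h2)
    exact (hre.mul_const _).add (him.mul_const _)
  obtain ⟨c, hc, hc2⟩ := exists_hasDerivAt_eq_slope g
    (fun s => ip ((1 - log (b + s * (a - b))) * (a - b)) (a - b)) (zero_lt_one)
    (fun s hs => (hg s hs).continuousAt.continuousWithinAt)
    (fun s hs => hg s ⟨hs.1.le, hs.2.le⟩)
  have h3 : ip ((1 - log (b + c * (a - b))) * (a - b)) (a - b) =
      (1 - log (b + c * (a - b))).re * ‖a - b‖ ^ 2 := by
    rw [← normSq_eq_norm_sq]
    simp only [ip, mul_re, mul_im, normSq_apply]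
    ring
  rw [h3] at hc2
  have h4 := re_one_sub_log (hseg c ⟨hc.1.le, hc.2.le⟩).2.le
  have h5 : g 1 - g 0 = ip (F a - F b) (a - b) := by
    simp only [g, ip]
    simp
    ring
  rw [h5, sub_zero, div_one] at hc2
  rw [← hc2]
  nlinarith [sq_nonneg ‖a - b‖]

lemma expand {a b : ℂ} (ha : a ∈ Hc) (hb : b ∈ Hc) :
    ‖a - b‖ ^ 2 ≤ ip (F a - F b) (a - b) := by
  let p : ℂ → ℝ → ℂ := fun a s => (1 - s) * a + s * (1 / 2)
  have hp : ∀ a ∈ Hc, ∀ s ∈ Ioo (0 : ℝ) 1, p a s ∈ H := by
    intro a ha s hs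
    have hre : (p a s).re = (1 - s) * a.re + s / 2 := by
      have : p a s = ((1 - s : ℝ) : ℂ) * a + ((s / 2 : ℝ) : ℂ) := by
        simp only [p]; push_cast; ring
      rw [this, add_re, re_ofReal_mul, ofReal_re]
    refine ⟨?_, ?_⟩
    · rw [hre]
      have := mul_nonneg (sub_nonneg.2 hs.2.le) ha.1
      linarith [hs.1]
    · have : p a s = ((1 - s : ℝ) : ℂ) * a + ((s / 2 : ℝ) : ℂ) := by
        simp only [p]; push_cast; ring
      rw [this]
      calc ‖((1 - s : ℝ) : ℂ) * a + ((s / 2 : ℝ) : ℂ)‖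
          ≤ ‖((1 - s : ℝ) : ℂ) * a‖ + ‖((s / 2 : ℝ) : ℂ)‖ := norm_add_le _ _
        _ = (1 - s) * ‖a‖ + s / 2 := by
            rw [norm_mul, norm_real, norm_real, Real.norm_eq_abs, Real.norm_eq_abs,
              abs_of_pos (by linarith [hs.2]), abs_of_pos (by linarith [hs.1])]
        _ < 1 := by
            have := mul_le_mul_of_nonneg_left ha.2 (sub_nonneg.2 hs.2.le)
            linarith [hs.1]
  have hpt : ∀ a ∈ Hc, Tendsto (fun s => p a s) (𝓝[>] 0) (𝓝[{w | 0 ≤ w.re}] a) := by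
    intro a ha
    apply tendsto_nhdsWithin_of_tendsto_nhds_of_eventually_within
    · have : Continuous fun s : ℝ => p a s := by
        simp only [p]; fun_prop
      have h := this.tendsto 0
      have h0 : p a 0 = a := by simp [p]
      rw [h0] at h
      exact h.mono_left nhdsWithin_le_nhds
    · filter_upwards [Ioo_mem_nhdsGT (zero_lt_one)] with s hs
      exact (hp a ha s hs).1.le
  have hF : ∀ a ∈ Hc, Tendsto (fun s => F (p a s)) (𝓝[>] 0) (𝓝 (F a)) := fun a ha =>
    ((F_contOn a ha.1).tendsto).comp (hpt a ha)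
  have hid : ∀ a ∈ Hc, Tendsto (fun s => p a s) (𝓝[>] 0) (𝓝 a) := fun a ha =>
    (hpt a ha).mono_right nhdsWithin_le_nhds
  have hL : Tendsto (fun s => ‖p a s - p b s‖ ^ 2) (𝓝[>] 0) (𝓝 (‖a - b‖ ^ 2)) :=
    (((hid a ha).sub (hid b hb)).norm).pow 2
  have hcip : Continuous fun q : ℂ × ℂ => ip q.1 q.2 := by
    unfold ip
    fun_prop
  have hR : Tendsto (fun s => ip (F (p a s) - F (p b s)) (p a s - p b s)) (𝓝[>] 0)
      (𝓝 (ip (F a - F b) (a - b))) :=
    (hcip.tendsto (F a - F b, a - b)).comp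
      (((hF a ha).sub (hF b hb)).prodMk_nhds ((hid a ha).sub (hid b hb)))
  apply le_of_tendsto_of_tendsto hL hR
  filter_upwards [Ioo_mem_nhdsGT (zero_lt_one)] with s hs
  exact expand_open (hp a ha s hs) (hp b hb s hs)

lemma F_expand {a b : ℂ} (ha : a ∈ Hc) (hb : b ∈ Hc) : ‖a - b‖ ≤ ‖F a - F b‖ := by
  have h1 := expand ha hb
  have h2 := ip_le (F a - F b) (a - b)
  by_cases h0 : ‖a - b‖ = 0
  · rw [h0]; exact norm_nonneg _
  · have h3 : 0 < ‖a - b‖ := lt_of_le_of_ne (norm_nonneg _) (Ne.symm h0)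
    have h4 : ‖a - b‖ * ‖a - b‖ ≤ ‖F a - F b‖ * ‖a - b‖ := by nlinarith
    exact le_of_mul_le_mul_right h4 h3

lemma F_injOn : InjOn F Hc := by
  intro a ha b hb h
  have := F_expand ha hb
  rw [h, sub_self, norm_zero] at this
  exact sub_eq_zero.1 (norm_le_zero_iff.1 this)

/-- values on the imaginary axis -/
lemma F_im (t : ℝ) (ht : |t| ≤ 1) : F (t * I) = ((Real.pi / 2 * |t| : ℝ) : ℂ) + (k t : ℝ) * I := by
  by_cases h0 : t = 0
  · subst h0
    simp [F, k_zero]
  rw [k_eq ht]
  unfold F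
  have hlog : log (t * I) = (Real.log t : ℝ) + ((Real.pi / 2 * SignType.sign t : ℝ) : ℂ) * I := by
    apply Complex.ext
    · rw [log_re]; simp
    · rw [log_im]
      rcases lt_or_gt_of_ne h0 with h | h
      · have : (t : ℂ) * I = ((-t : ℝ) : ℂ) * (-I) := by push_cast; ring
        rw [this, arg_real_mul _ (by linarith), arg_neg_I]
        simp [h]
      · rw [arg_real_mul _ h, arg_I]
        simp [h]
  rw [hlog]
  have h2 : (t : ℝ) * SignType.sign t = |t| := by
    rcases lt_or_gt_of_ne h0 with h | h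
    · simp [h, abs_of_neg h]
    · simp [h, abs_of_pos h]
  have h3 : ((Real.pi / 2 * |t| : ℝ) : ℂ) = (Real.pi / 2 * (t * SignType.sign t) : ℝ) := by
    rw [h2]
  rw [h3]
  push_cast
  linear_combination (-(Real.pi / 2 : ℂ) * t * ((SignType.sign t : ℝ) : ℂ)) * I_sq

/-- The domain. -/
def D : Set ℂ := {z | φ z.im < z.re}

lemma D_open : IsOpen D := isOpen_lt (φ_cont.comp continuous_im) continuous_re

/-- The part of `D` in the ball. -/
def S : Set ℂ := {z | z ∈ D ∧ ‖z‖ < 2}

lemma S_open : IsOpen S := D_open.inter (isOpen_lt continuous_norm continuous_const)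

lemma abs_im_lt {z : ℂ} (h : ‖z‖ < 2) : |z.im| < 2 := (abs_im_le_norm z).trans_lt h

lemma bd_mem {y : ℝ} (h : |y| < 2) : (θ y : ℂ) * I ∈ Hc := by
  refine ⟨by simp, ?_⟩
  rw [norm_mul, norm_I, mul_one, norm_real, Real.norm_eq_abs]
  exact (abs_θ_lt_one h).le

lemma F_bd {y : ℝ} (h : |y| < 2) : F (θ y * I) = (φ y : ℝ) + (y : ℝ) * I := by
  rw [F_im _ (abs_θ_lt_one h).le, k_θ]
  rfl

lemma F_mem_D {w : ℂ} (hw : w ∈ H) (hF : ‖F w‖ < 2) : F w ∈ S := by
  refine ⟨?_, hF⟩
  have hy := abs_im_lt hF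
  have h1 := expand (H_sub hw) (bd_mem hy)
  rw [F_bd hy] at h1
  have h2 : ip (F w - ((φ (F w).im : ℝ) + ((F w).im : ℝ) * I)) (w - θ (F w).im * I) =
      ((F w).re - φ (F w).im) * w.re := by
    simp [ip]
  rw [h2] at h1
  have h3 : 0 < ‖w - θ (F w).im * I‖ ^ 2 := by
    have : w - θ (F w).im * I ≠ 0 := by
      intro h
      have := congrArg re h
      simp at this
      exact hw.1.ne' this
    positivity
  have h4 : 0 < ((F w).re - φ (F w).im) * w.re := lt_of_lt_of_le h3 h1
  have h5 := (pos_iff_pos_of_mul_pos h4).2 hw.1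
  show φ (F w).im < (F w).re
  linarith

lemma S_conn : IsPreconnected S := by
  have key : ∀ z ∈ S, ∀ s ∈ Icc (0 : ℝ) 1, ((z.re : ℂ) + (s * z.im : ℝ) * I) ∈ S := by
    intro z hz s hs
    have habs : |s * z.im| ≤ |z.im| := by
      rw [abs_mul, abs_of_nonneg hs.1]
      have := mul_le_mul_of_nonneg_right hs.2 (abs_nonneg z.im)
      linarith
    refine ⟨?_, ?_⟩
    · show φ _ < _
      have h1 : ((z.re : ℂ) + (s * z.im : ℝ) * I).im = s * z.im := by simp
      have h2 : ((z.re : ℂ) + (s * z.im : ℝ) * I).re = z.re := by simp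
      rw [h1, h2]
      exact (φ_mono_abs habs).trans_lt hz.1
    · refine lt_of_le_of_lt ?_ hz.2
      rw [← abs_of_nonneg (norm_nonneg _), ← abs_of_nonneg (norm_nonneg z), ← sq_le_sq,
        ← normSq_eq_norm_sq, ← normSq_eq_norm_sq, normSq_apply, normSq_apply]
      have h1 : ((z.re : ℂ) + (s * z.im : ℝ) * I).im = s * z.im := by simp
      have h2 : ((z.re : ℂ) + (s * z.im : ℝ) * I).re = z.re := by simp
      rw [h1, h2]
      have := sq_le_sq.2 habs
      nlinarith
  -- every point is joined to the real segment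
  let R : Set ℂ := (fun x : ℝ => (x : ℂ)) '' Ioo 0 2
  have hR : IsPreconnected R := isPreconnected_Ioo.image _ continuous_ofReal.continuousOn
  have hRS : R ⊆ S := by
    rintro _ ⟨x, hx, rfl⟩
    refine ⟨?_, ?_⟩
    · show φ _ < _
      simp only [ofReal_im, ofReal_re, φ_zero]
      exact hx.1
    · rw [norm_real, Real.norm_eq_abs, abs_of_pos hx.1]; exact hx.2
  apply isPreconnected_of_forall (1 : ℂ)
  intro z hz
  let Vz : Set ℂ := (fun s : ℝ => (z.re : ℂ) + (s * z.im : ℝ) * I) '' Icc 0 1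
  have hV : IsPreconnected Vz := isPreconnected_Icc.image _ (by fun_prop)
  have hz0 : 0 < z.re := (φ_nonneg _).trans_lt hz.1
  have hzR : ((z.re : ℝ) : ℂ) ∈ R := ⟨z.re, ⟨hz0, (re_le_norm z).trans_lt hz.2⟩, rfl⟩
  refine ⟨R ∪ Vz, union_subset hRS ?_, Or.inl ⟨1, by norm_num, by simp⟩, Or.inr ?_, ?_⟩
  · rintro _ ⟨s, hs, rfl⟩
    exact key z hz s hs
  · exact ⟨1, by norm_num, by simp [re_add_im]⟩
  · have hzV : ((z.re : ℝ) : ℂ) ∈ Vz := ⟨0, by norm_num, by simp⟩
    exact IsPreconnected.union ((z.re : ℝ) : ℂ) hzR hzV hR hV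

lemma image_open : IsOpen (F '' H) := by
  rw [isOpen_iff_mem_nhds]
  rintro _ ⟨w, hw, rfl⟩
  have h1 := F_deriv (H_slit hw)
  have h2 : (1 - log w) ≠ 0 := by
    intro h
    have := re_one_sub_log hw.2.le
    rw [h] at this
    norm_num at this
  rw [← h1.map_nhds_eq h2]
  exact image_mem_map (H_open.mem_nhds hw)

lemma S_sub_image : S ⊆ F '' H := by
  apply S_conn.subset_of_closure_inter_subset image_open
  · refine ⟨F (Real.exp (-1) : ℝ), ?_, mem_image_of_mem F ?_⟩
    · have h1 : F ((Real.exp (-1) : ℝ) : ℂ) = ((3 * Real.exp (-1) : ℝ) : ℂ) := by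
        unfold F
        rw [← ofReal_log (Real.exp_pos _).le, Real.log_exp]
        push_cast; ring
      rw [h1]
      have h2 := Real.exp_pos (-1)
      have h3 : Real.exp (-1) < 1 / 2 := by
        rw [Real.exp_neg, inv_eq_one_div]
        apply one_div_lt_one_div_of_lt (by norm_num)
        have := Real.add_one_lt_exp (x := 1) (by norm_num)
        linarith
      refine ⟨?_, ?_⟩
      · show φ _ < _
        rw [ofReal_im, ofReal_re, φ_zero]; positivity
      · rw [norm_real, Real.norm_eq_abs, abs_of_pos (by positivity)]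
        linarith
    · refine ⟨by rw [ofReal_re]; exact Real.exp_pos _, ?_⟩
      rw [norm_real, Real.norm_eq_abs, abs_of_pos (Real.exp_pos _)]
      rw [Real.exp_lt_one_iff]; norm_num
  · rintro z ⟨hz, hzS⟩
    have h1 : closure (F '' H) ⊆ F '' Hc :=
      closure_minimal (image_mono H_sub)
        (Hc_compact.image_of_continuousOn (F_contOn.mono fun w hw => hw.1)).isClosed
    obtain ⟨w, hw, rfl⟩ := h1 hz
    refine ⟨w, ⟨lt_of_le_of_ne hw.1 ?_, lt_of_le_of_ne hw.2 ?_⟩, rfl⟩
    · intro h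
      have hw2 : w = (w.im : ℂ) * I := Complex.ext (by simp [← h]) (by simp)
      have h3 : |w.im| ≤ 1 := (abs_im_le_norm w).trans hw.2
      have h4 := F_im w.im h3
      rw [← hw2] at h4
      have h5 : φ (F w).im < (F w).re := hzS.1
      rw [h4] at h5
      simp only [add_im, ofReal_im, mul_im, ofReal_re, I_im, mul_one, I_re, mul_zero, add_zero,
        zero_add, add_re, mul_re, φ, θ_k, sub_self] at h5
      exact lt_irrefl _ h5
    · intro h
      have h2 : 2 ≤ ‖F w‖ := by
        unfold F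
        rw [norm_mul, h, one_mul]
        have h3 : (2 - log w).re = 2 := by
          rw [sub_re, log_re, h, Real.log_one]; simp
        calc (2 : ℝ) = (2 - log w).re := h3.symm
          _ ≤ ‖2 - log w‖ := re_le_norm _
      exact absurd hzS.2 (not_lt.2 h2)

/-- The inverse conformal map. -/
noncomputable def G (z : ℂ) : ℂ := Function.invFunOn F Hc z

lemma G_spec {z : ℂ} (h : z ∈ F '' Hc) : G z ∈ Hc ∧ F (G z) = z :=
  Function.invFunOn_pos h

lemma G_F {w : ℂ} (h : w ∈ Hc) : G (F w) = w := by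
  have h1 := G_spec (mem_image_of_mem F h)
  exact F_injOn h1.1 h h1.2

lemma G_mem {z : ℂ} (h : z ∈ S) : G z ∈ H := by
  obtain ⟨w, hw, rfl⟩ := S_sub_image h
  rw [G_F (H_sub hw)]; exact hw

lemma F_G {z : ℂ} (h : z ∈ S) : F (G z) = z := by
  obtain ⟨w, hw, rfl⟩ := S_sub_image h
  rw [G_F (H_sub hw)]

lemma S_sub_c {z : ℂ} (h : z ∈ S) : z ∈ F '' Hc := image_mono H_sub (S_sub_image h)

lemma G_lip {z z' : ℂ} (h : z ∈ F '' Hc) (h' : z' ∈ F '' Hc) : ‖G z - G z'‖ ≤ ‖z - z'‖ := by
  obtain ⟨w, hw, rfl⟩ := h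
  obtain ⟨w', hw', rfl⟩ := h'
  rw [G_F hw, G_F hw']
  exact F_expand hw hw'

lemma G_cont : ContinuousOn G (F '' Hc) := by
  have : LipschitzOnWith 1 G (F '' Hc) := by
    apply LipschitzOnWith.of_dist_le_mul
    intro z hz z' hz'
    rw [dist_eq_norm, dist_eq_norm, NNReal.coe_one, one_mul]
    exact G_lip hz hz'
  exact this.continuousOn

lemma one_sub_log_ne {w : ℂ} (h : ‖w‖ ≤ 1) : 1 - log w ≠ 0 := by
  intro h0
  have := re_one_sub_log h
  rw [h0] at this
  norm_num at this

lemma G_deriv {z : ℂ} (h : z ∈ S) : HasDerivAt G (1 - log (G z))⁻¹ z := by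
  have h1 := G_mem h
  have hc : ContinuousAt G z := (G_cont.mono fun x hx => S_sub_c hx).continuousAt (S_open.mem_nhds h)
  exact HasDerivAt.of_local_left_inverse hc (F_deriv (H_slit h1)).hasDerivAt
    (one_sub_log_ne h1.2.le) (by filter_upwards [S_open.mem_nhds h] with y hy using F_G hy)

end Pool.Agent.Y310.FB
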