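import Pool.Agent.Y310.FB2

/-! The solution `u` and its `C^{1,1}` regularity. -/

set_option autoImplicit false

open Set Filter Topology Complex

namespace Pool.Agent.Y310.FB

/-- `Ψ' (w) = w² (1 - log w)`, so `(Ψ ∘ G)' = G²`. -/
noncomputable def Ψ (w : ℂ) : ℂ := w ^ 3 * (4 / 9) - w ^ 2 * (w * log w) / 3

lemma Ψ_contOn : ContinuousOn Ψ {w | 0 ≤ w.re} := by
  unfold Ψ
  exact ((continuous_id.pow 3).mul continuous_const).continuousOn.sub
    (((continuous_id.pow 2).continuousOn.mul wlog_contOn).div_const _)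

lemma Ψ_deriv {w : ℂ} (h : w ∈ slitPlane) : HasDerivAt Ψ (w ^ 2 * (1 - log w)) w := by
  have h1 : HasDerivAt (fun w : ℂ => w ^ 3 * (4 / 9)) (3 * w ^ 2 * (4 / 9)) w := by
    simpa using (hasDerivAt_pow 3 w).mul_const (4 / 9 : ℂ)
  have h2 : HasDerivAt (fun w : ℂ => w * log w) (1 * log w + w * w⁻¹) w :=
    (hasDerivAt_id w).mul (hasDerivAt_log h)
  have h3 : HasDerivAt (fun w : ℂ => w ^ 2) (2 * w) w := by simpa using hasDerivAt_pow 2 w
  have h4 := h1.sub ((h3.mul h2).div_const 3)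
  refine h4.congr_deriv ?_
  have : w ≠ 0 := slitPlane_ne_zero h
  field_simp
  ring

/-- The formula for the solution in `D`. -/
noncomputable def U0 (z : ℂ) : ℝ := z.re ^ 3 / 6 + Real.pi ^ 2 / 8 * (Ψ (G z)).re

/-- The solution. -/
noncomputable def u : ℂ → ℝ := D.indicator U0

/-- The density of the gradient. -/
noncomputable def Q (z : ℂ) : ℂ := ((z.re ^ 2 / 2 : ℝ) : ℂ) + ((Real.pi ^ 2 / 8 : ℝ) : ℂ) * G z ^ 2

/-- The real linear form `h ↦ re (q h)`. -/
noncomputable def Lf (q : ℂ) : ℂ →L[ℝ] ℝ := reCLM.comp (q • (ContinuousLinearMap.id ℝ ℂ))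

lemma Lf_apply (q h : ℂ) : Lf q h = (q * h).re := rfl

lemma Lf_sub (q q' : ℂ) : Lf q - Lf q' = Lf (q - q') := by
  ext h
  simp [Lf_apply]
  ring

lemma Lf_norm (q : ℂ) : ‖Lf q‖ ≤ ‖q‖ := by
  apply ContinuousLinearMap.opNorm_le_bound _ (norm_nonneg _)
  intro h
  rw [Lf_apply, Real.norm_eq_abs, ← norm_mul]
  exact abs_re_le_norm _

lemma U0_deriv {z : ℂ} (h : z ∈ S) : HasFDerivAt U0 (Lf (Q z)) z := by
  have h1 : HasFDerivAt (fun z : ℂ => z.re ^ 3 / 6) ((z.re ^ 2 / 2) • reCLM) z := by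
    have h2 : HasDerivAt (fun x : ℝ => x ^ 3 / 6) (z.re ^ 2 / 2) z.re := by
      have := (hasDerivAt_pow 3 z.re).div_const 6
      refine this.congr_deriv ?_
      norm_num
      ring
    exact h2.comp_hasFDerivAt z reCLM.hasFDerivAt
  have hG := G_deriv h
  have hΨ : HasDerivAt (fun z => Ψ (G z)) (G z ^ 2) z := by
    have h3 := (Ψ_deriv (H_slit (G_mem h))).comp z hG
    refine h3.congr_deriv ?_
    have := one_sub_log_ne (G_mem h).2.le
    field_simp
  have h4 : HasFDerivAt (fun z => (Ψ (G z)).re)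
      (reCLM.comp ((G z ^ 2) • (ContinuousLinearMap.id ℝ ℂ))) z := by
    have h5 := (hΨ.hasFDerivAt.restrictScalars ℝ)
    have h6 := reCLM.hasFDerivAt.comp z h5
    refine h6.congr_fderiv ?_
    ext v <;> simp [mul_comm]
  have h7 := h1.add (h4.const_mul (Real.pi ^ 2 / 8))
  refine h7.congr_fderiv ?_
  ext v
  simp only [Lf_apply, Q, add_mul, add_re, re_ofReal_mul, mul_assoc]
  simp [mul_re]

lemma D_bd_not {z : ℂ} (h : z.re = φ z.im) : z ∉ D := by
  intro h'
  have : φ z.im < z.re := h'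
  linarith

/-- the boundary point at height `y` -/
noncomputable def bp (y : ℝ) : ℂ := (φ y : ℝ) + (y : ℝ) * I

lemma bp_re (y : ℝ) : (bp y).re = φ y := by simp [bp]

lemma bp_im (y : ℝ) : (bp y).im = y := by simp [bp]

lemma bp_mem {y : ℝ} (h : |y| < 2) : bp y ∈ F '' Hc :=
  ⟨θ y * I, bd_mem h, F_bd h⟩

lemma G_bp {y : ℝ} (h : |y| < 2) : G (bp y) = θ y * I := by
  have : bp y = F (θ y * I) := (F_bd h).symm
  rw [this, G_F (bd_mem h)]

lemma Q_bp {y : ℝ} (h : |y| < 2) : Q (bp y) = 0 := by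
  unfold Q
  rw [G_bp h, bp_re, φ, mul_pow, mul_pow, sq_abs, I_sq]
  push_cast
  ring

lemma U0_bp {y : ℝ} (h : |y| < 2) : U0 (bp y) = 0 := by
  unfold U0
  rw [G_bp h, bp_re]
  have h1 : F (θ y * I) = (φ y : ℝ) + (y : ℝ) * I := F_bd h
  -- `w log w = 2 w - F w`
  have h2 : (θ y * I : ℂ) * log (θ y * I) = 2 * (θ y * I) - ((φ y : ℝ) + (y : ℝ) * I) := by
    rw [← h1, F_eq]; ring
  unfold Ψ
  rw [h2]
  have h3 : ((θ y * I : ℂ) ^ 3 * (4 / 9) -
      (θ y * I) ^ 2 * (2 * (θ y * I) - ((φ y : ℝ) + (y : ℝ) * I)) / 3) =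
      ((-(θ y ^ 2 * φ y / 3) : ℝ) : ℂ) +
        ((-(θ y ^ 3) * (4 / 9) + θ y ^ 2 * (2 * θ y - y) / 3 : ℝ) : ℂ) * I := by
    have hI3 : I ^ 3 = - I := by rw [pow_succ, I_sq]; ring
    rw [mul_pow, mul_pow, hI3, I_sq]
    push_cast
    ring
  rw [h3]
  simp only [add_re, ofReal_re, mul_re, I_re, mul_zero, ofReal_im, I_im, mul_one, sub_self,
    add_zero, φ]
  have h4 : |θ y| ^ 2 = θ y ^ 2 := sq_abs _
  have h5 : (Real.pi / 2 * |θ y|) ^ 3 = Real.pi ^ 3 / 8 * (θ y ^ 2 * |θ y|) := by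
    rw [← h4]; ring
  rw [h5]
  ring

lemma Q_lip {z z' : ℂ} (h : z ∈ F '' Hc) (h' : z' ∈ F '' Hc) (hn : ‖z‖ ≤ 2) (hn' : ‖z'‖ ≤ 2) :
    ‖Q z - Q z'‖ ≤ 5 * ‖z - z'‖ := by
  have h1 : Q z - Q z' = (((z.re - z'.re) * ((z.re + z'.re) / 2) : ℝ) : ℂ) +
      ((Real.pi ^ 2 / 8 : ℝ) : ℂ) * ((G z - G z') * (G z + G z')) := by
    unfold Q; push_cast; ring
  rw [h1]
  have h2 : ‖(((z.re - z'.re) * ((z.re + z'.re) / 2) : ℝ) : ℂ)‖ ≤ ‖z - z'‖ * 2 := by
    rw [norm_real, Real.norm_eq_abs, abs_mul]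
    apply mul_le_mul
    · rw [← sub_re]; exact abs_re_le_norm _
    · rw [abs_div]
      have h3 := abs_add_le z.re z'.re
      have h4 := (abs_re_le_norm z).trans hn
      have h5 := (abs_re_le_norm z').trans hn'
      rw [abs_of_pos (by norm_num : (0 : ℝ) < 2)]
      linarith
    · exact abs_nonneg _
    · exact norm_nonneg _
  have h3 : ‖((Real.pi ^ 2 / 8 : ℝ) : ℂ) * ((G z - G z') * (G z + G z'))‖ ≤
      (Real.pi ^ 2 / 8) * (‖z - z'‖ * 2) := by
    rw [norm_mul, norm_real, Real.norm_eq_abs, abs_of_pos (by positivity), norm_mul]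
    apply mul_le_mul_of_nonneg_left _ (by positivity)
    apply mul_le_mul (G_lip h h')
    · have h4 := norm_add_le (G z) (G z')
      have h5 := (G_spec h).1.2
      have h6 := (G_spec h').1.2
      linarith
    · exact norm_nonneg _
    · exact norm_nonneg _
  have h4 := norm_add_le (((z.re - z'.re) * ((z.re + z'.re) / 2) : ℝ) : ℂ)
    (((Real.pi ^ 2 / 8 : ℝ) : ℂ) * ((G z - G z') * (G z + G z')))
  have h5 : Real.pi ^ 2 ≤ 10 := by
    have := Real.pi_lt_d2
    have := Real.pi_pos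
    nlinarith
  have h6 := norm_nonneg (z - z')
  nlinarith

lemma bp_norm {z : ℂ} (h : z ∈ S) : ‖bp z.im‖ ≤ 2 := by
  refine le_trans ?_ h.2.le
  rw [← abs_of_nonneg (norm_nonneg _), ← abs_of_nonneg (norm_nonneg z), ← sq_le_sq,
    ← normSq_eq_norm_sq, ← normSq_eq_norm_sq, normSq_apply, normSq_apply, bp_re, bp_im]
  have h1 := φ_nonneg z.im
  have h2 : φ z.im < z.re := h.1
  nlinarith

lemma sub_bp_norm {z : ℂ} (h : z ∈ S) : ‖z - bp z.im‖ = z.re - φ z.im := by
  have h1 : z - bp z.im = ((z.re - φ z.im : ℝ) : ℂ) := by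
    apply Complex.ext <;> simp [bp]
  have h2 : φ z.im < z.re := h.1
  rw [h1, norm_real, Real.norm_eq_abs, abs_of_pos (by linarith)]

lemma Q_bound {z : ℂ} (h : z ∈ S) : ‖Q z‖ ≤ 5 * (z.re - φ z.im) := by
  have h1 := Q_lip (S_sub_c h) (bp_mem (abs_im_lt h.2)) h.2.le (bp_norm h)
  rwa [Q_bp (abs_im_lt h.2), sub_zero, sub_bp_norm h] at h1

lemma U0_contOn : ContinuousOn U0 (F '' Hc) := by
  unfold U0
  apply ContinuousOn.add
  · exact ((continuous_re.pow 3).div_const 6).continuousOn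
  · apply ContinuousOn.mul continuousOn_const
    apply continuous_re.comp_continuousOn
    exact Ψ_contOn.comp G_cont fun z hz => (G_spec hz).1.1

lemma U0_bound {z : ℂ} (h : z ∈ S) : |U0 z| ≤ 5 * (z.re - φ z.im) ^ 2 := by
  have hy := abs_im_lt h.2
  have hr : 0 < z.re - φ z.im := sub_pos.2 h.1
  set r := z.re - φ z.im with hrd
  let γ : ℝ → ℂ := fun s => bp z.im + s
  have hγ : ∀ s ∈ Ioc (0 : ℝ) r, γ s ∈ S := by
    intro s hs
    have h1 : (γ s).re = φ z.im + s := by simp [γ, bp_re]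
    have h2 : (γ s).im = z.im := by simp [γ, bp_im]
    refine ⟨?_, ?_⟩
    · show φ _ < _
      rw [h1, h2]; linarith [hs.1]
    · refine lt_of_le_of_lt ?_ h.2
      rw [← abs_of_nonneg (norm_nonneg _), ← abs_of_nonneg (norm_nonneg z), ← sq_le_sq,
        ← normSq_eq_norm_sq, ← normSq_eq_norm_sq, normSq_apply, normSq_apply, h1, h2]
      have h3 := φ_nonneg z.im
      have h4 := hs.1
      have h5 := hs.2
      nlinarith
  have hγ0 : γ 0 = bp z.im := by simp [γ]
  have hγr : γ r = z := by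
    apply Complex.ext <;> simp [γ, bp, hrd]
  have hγc : Continuous γ := by simp only [γ]; fun_prop
  have hcont : ContinuousOn (fun s => U0 (γ s)) (Icc 0 r) := by
    apply U0_contOn.comp hγc.continuousOn
    intro s hs
    rcases eq_or_lt_of_le hs.1 with h0 | h0
    · rw [← h0, hγ0]; exact bp_mem hy
    · exact S_sub_c (hγ s ⟨h0, hs.2⟩)
  have hder : ∀ s ∈ Ioo (0 : ℝ) r, HasDerivAt (fun s => U0 (γ s)) ((Q (γ s)).re) s := by
    intro s hs
    have h1 : HasDerivAt γ 1 s := by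
      have := ((hasDerivAt_id s).ofReal_comp).const_add (bp z.im)
      rw [ofReal_one] at this
      exact this
    have h2 := (U0_deriv (hγ s ⟨hs.1, hs.2.le⟩)).comp_hasDerivAt s h1
    rw [Lf_apply, mul_one] at h2
    exact h2
  obtain ⟨c, hc, hc2⟩ := exists_hasDerivAt_eq_slope (fun s => U0 (γ s)) _ hr hcont hder
  rw [hγ0, hγr, U0_bp hy, sub_zero, sub_zero] at hc2
  have h3 := Q_bound (hγ c ⟨hc.1, hc.2.le⟩)
  have h4 : (γ c).re - φ (γ c).im = c := by simp [γ, bp_re, bp_im]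
  rw [h4] at h3
  have h5 : U0 z = (Q (γ c)).re * r := by
    rw [hc2]; field_simp
  rw [h5, abs_mul, abs_of_pos hr]
  have h6 := abs_re_le_norm (Q (γ c))
  have h7 : |(Q (γ c)).re| ≤ 5 * r := by linarith [hc.2]
  calc |(Q (γ c)).re| * r ≤ 5 * r * r := mul_le_mul_of_nonneg_right h7 hr.le
    _ = 5 * r ^ 2 := by ring

lemma u_of_mem {z : ℂ} (h : z ∈ D) : u z = U0 z := indicator_of_mem h _

lemma u_of_not {z : ℂ} (h : z ∉ D) : u z = 0 := indicator_of_notMem h _

/-- the gradient field -/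
noncomputable def V : ℂ → (ℂ →L[ℝ] ℝ) := D.indicator fun z => Lf (Q z)

lemma gap {z z' : ℂ} (h : z ∉ D) : z'.re - φ z'.im ≤ 3 * ‖z' - z‖ := by
  have h1 : z.re ≤ φ z.im := not_lt.1 h
  have h2 := φ_lip z.im z'.im
  have h3 := abs_le.1 h2
  have h4 : |z.im - z'.im| ≤ ‖z' - z‖ := by
    rw [abs_sub_comm, ← sub_im]; exact abs_im_le_norm _
  have h5 : z'.re - z.re ≤ ‖z' - z‖ := by rw [← sub_re]; exact re_le_norm _
  have h6 : Real.pi / 2 ≤ 2 := by linarith [Real.pi_le_four]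
  have h7 : Real.pi / 2 * |z.im - z'.im| ≤ 2 * ‖z' - z‖ :=
    mul_le_mul h6 h4 (abs_nonneg _) (by norm_num)
  linarith [h3.2]

lemma u_deriv {z : ℂ} (hz : ‖z‖ < 2) : HasFDerivAt u (V z) z := by
  by_cases h : z ∈ D
  · have hS : z ∈ S := ⟨h, hz⟩
    rw [V, indicator_of_mem h]
    apply (U0_deriv hS).congr_of_eventuallyEq
    filter_upwards [D_open.mem_nhds h] with w hw using u_of_mem hw
  · rw [V, indicator_of_notMem h]
    have hO : u =O[𝓝 z] fun x => ‖x - z‖ ^ 2 := by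
      apply Asymptotics.IsBigO.of_bound 45
      filter_upwards [(isOpen_lt continuous_norm continuous_const).mem_nhds hz] with w hw
      by_cases hwD : w ∈ D
      · rw [u_of_mem hwD, Real.norm_eq_abs, Real.norm_eq_abs, abs_of_nonneg (sq_nonneg ‖w - z‖)]
        have h1 := U0_bound (z := w) ⟨hwD, hw⟩
        have h2 := gap (z' := w) h
        have h3 : 0 < w.re - φ w.im := sub_pos.2 hwD
        have h4 := norm_nonneg (w - z)
        nlinarith
      · rw [u_of_not hwD, norm_zero]; positivity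
    exact hO.hasFDerivAt (by norm_num)

lemma V_norm_sub {z z' : ℂ} (hz : ‖z‖ < 2) (hz' : ‖z'‖ < 2) : ‖V z - V z'‖ ≤ 15 * ‖z - z'‖ := by
  have hn := norm_nonneg (z - z')
  by_cases h : z ∈ D <;> by_cases h' : z' ∈ D
  · rw [V, indicator_of_mem h, indicator_of_mem h', Lf_sub]
    have h1 := Q_lip (S_sub_c ⟨h, hz⟩) (S_sub_c ⟨h', hz'⟩) hz.le hz'.le
    have h2 := Lf_norm (Q z - Q z')
    linarith
  · rw [V, indicator_of_mem h, indicator_of_notMem h', sub_zero]
    have h1 := Lf_norm (Q z)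
    have h2 := Q_bound (z := z) ⟨h, hz⟩
    have h3 := gap (z' := z) h'
    linarith
  · rw [V, indicator_of_notMem h, indicator_of_mem h', zero_sub, norm_neg]
    have h1 := Lf_norm (Q z')
    have h2 := Q_bound (z := z') ⟨h', hz'⟩
    have h3 := gap (z' := z') h
    rw [norm_sub_rev] at h3
    linarith
  · rw [V, indicator_of_notMem h, indicator_of_notMem h', sub_zero, norm_zero]
    positivity

lemma fderiv_u {z : ℂ} (hz : ‖z‖ < 2) : fderiv ℝ u z = V z := (u_deriv hz).fderiv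

lemma fderiv_lip : LipschitzOnWith 15 (fderiv ℝ u) (Metric.ball 0 2) := by
  apply LipschitzOnWith.of_dist_le_mul
  intro z hz z' hz'
  rw [mem_ball_zero_iff] at hz hz'
  rw [dist_eq_norm, dist_eq_norm, fderiv_u hz, fderiv_u hz']
  exact V_norm_sub hz hz'

lemma u_C1 : ContDiffOn ℝ 1 u (Metric.ball 0 2) := by
  rw [show (1 : WithTop ℕ∞) = 0 + 1 by norm_num,
    contDiffOn_succ_iff_fderiv_of_isOpen Metric.isOpen_ball]
  refine ⟨fun z hz => (u_deriv (mem_ball_zero_iff.1 hz)).differentiableAt.differentiableWithinAt,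
    ?_, ?_⟩
  · simp
  · rw [contDiffOn_zero]
    exact fderiv_lip.continuousOn

open InnerProductSpace in
lemma laplace_D {z : ℂ} (h : z ∈ S) : ContDiffAt ℝ 2 u z ∧ Laplacian.laplacian u z = z.re := by
  have hG : AnalyticAt ℂ (fun z => Ψ (G z)) z := by
    rw [Complex.analyticAt_iff_eventually_differentiableAt]
    filter_upwards [S_open.mem_nhds h] with w hw
    exact ((Ψ_deriv (H_slit (G_mem hw))).comp w (G_deriv hw)).differentiableAt
  have hH := hG.harmonicAt_re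
  have h1 : u =ᶠ[𝓝 z] ((fun z : ℂ => z.re ^ 3 / 6) +
      (Real.pi ^ 2 / 8) • (fun z => (Ψ (G z)).re)) := by
    filter_upwards [D_open.mem_nhds h.1] with w hw
    rw [u_of_mem hw]; rfl
  have hc1 : ContDiffAt ℝ 2 (fun z : ℂ => z.re ^ 3 / 6) z := by
    have : ContDiff ℝ 2 (fun z : ℂ => reCLM z ^ 3 / 6) := by fun_prop
    exact this.contDiffAt
  have hc2 : ContDiffAt ℝ 2 ((Real.pi ^ 2 / 8) • (fun z => (Ψ (G z)).re)) z :=
    hH.1.const_smul (Real.pi ^ 2 / 8)
  refine ⟨(hc1.add hc2).congr_of_eventuallyEq h1, ?_⟩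
  rw [(laplacian_congr_nhds h1).self_of_nhds, hc1.laplacian_add hc2, laplacian_smul _ hH.1,
    hH.2.self_of_nhds]
  simp only [Pi.zero_apply, smul_zero, add_zero]
  -- Laplacian of `x³/6`
  rw [laplacian_eq_iteratedFDeriv_complexPlane]
  have e1 : fderiv ℝ (fun z : ℂ => z.re ^ 3 / 6) = fun z => (z.re ^ 2 / 2) • reCLM := by
    funext z
    have h2 : HasDerivAt (fun x : ℝ => x ^ 3 / 6) (z.re ^ 2 / 2) z.re := by
      have := (hasDerivAt_pow 3 z.re).div_const 6
      refine this.congr_deriv ?_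
      norm_num
      ring
    exact (h2.comp_hasFDerivAt z reCLM.hasFDerivAt).fderiv
  have e2 : ∀ z : ℂ, HasFDerivAt (fun z : ℂ => (z.re ^ 2 / 2) • reCLM)
      ((z.re • reCLM).smulRight reCLM) z := by
    intro z
    have h2 : HasDerivAt (fun x : ℝ => x ^ 2 / 2) z.re z.re := by
      have := (hasDerivAt_pow 2 z.re).div_const 2
      refine this.congr_deriv ?_
      norm_num
    exact (h2.comp_hasFDerivAt z reCLM.hasFDerivAt).smul_const reCLM
  show (iteratedFDeriv ℝ 2 (fun z : ℂ => z.re ^ 3 / 6) z) ![1, 1] +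
    (iteratedFDeriv ℝ 2 (fun z : ℂ => z.re ^ 3 / 6) z) ![I, I] = z.re
  rw [iteratedFDeriv_two_apply, iteratedFDeriv_two_apply, e1, (e2 z).fderiv]
  simp

open InnerProductSpace in
lemma laplace_out {z : ℂ} (h : z ∉ closure D) :
    ContDiffAt ℝ 2 u z ∧ Laplacian.laplacian u z = 0 := by
  have h1 : u =ᶠ[𝓝 z] fun _ => 0 := by
    filter_upwards [isClosed_closure.isOpen_compl.mem_nhds h] with w hw
    exact u_of_not fun h' => hw (subset_closure h')
  refine ⟨contDiffAt_const.congr_of_eventuallyEq h1, ?_⟩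
  rw [(laplacian_congr_nhds h1).self_of_nhds]
  simp

lemma frontier_D : frontier D = {z | z.re = φ z.im} := by
  apply Subset.antisymm
  · intro z hz
    have h1 : z ∉ D := by
      rw [D_open.frontier_eq] at hz; exact hz.2
    have h2 : z ∈ closure D := frontier_subset_closure hz
    have h3 : closure D ⊆ {z | φ z.im ≤ z.re} :=
      closure_minimal (fun z (hz : φ z.im < z.re) => hz.le)
        (isClosed_le (φ_cont.comp continuous_im) continuous_re)
    exact le_antisymm (not_lt.1 h1) (h3 h2)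
  · intro z hz
    rw [D_open.frontier_eq]
    refine ⟨?_, D_bd_not hz⟩
    have h1 : Tendsto (fun s : ℝ => z + s) (𝓝[>] 0) (𝓝 z) := by
      have : Continuous fun s : ℝ => z + s := by fun_prop
      have h := this.tendsto 0
      simp only [ofReal_zero, add_zero] at h
      exact h.mono_left nhdsWithin_le_nhds
    apply mem_closure_of_tendsto h1
    filter_upwards [self_mem_nhdsWithin] with s hs
    show φ _ < _
    have h2 : (z + (s : ℂ)).im = z.im := by simp
    have h3 : (z + (s : ℂ)).re = z.re + s := by simp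
    rw [h2, h3, ← show z.re = φ z.im from hz]
    linarith [show (0 : ℝ) < s from hs]

open MeasureTheory in
lemma frontier_null : volume (frontier D) = 0 := by
  rw [frontier_D]
  have hmeas : MeasurableSet {p : ℝ × ℝ | p.1 = φ p.2} :=
    (isClosed_eq continuous_fst (φ_cont.comp continuous_snd)).measurableSet
  have h1 : {z : ℂ | z.re = φ z.im} =
      Complex.measurableEquivRealProd ⁻¹' {p : ℝ × ℝ | p.1 = φ p.2} := rfl
  rw [h1, (Complex.volume_preserving_equiv_real_prod).measure_preimage hmeas.nullMeasurableSet,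
    Measure.volume_eq_prod, Measure.prod_apply_symm hmeas]
  simp only [preimage_ofPred_eq]
  have : ∀ y : ℝ, volume {x : ℝ | x = φ y} = 0 := by
    intro y
    have : {x : ℝ | x = φ y} = {φ y} := rfl
    rw [this]; simp
  simp

end Pool.Agent.Y310.FB
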