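import Pool.Agent.Y310.FB3

/-! `∂D` is not a `C^{1,α}` graph near `0`, in any rotated coordinates. -/

set_option autoImplicit false

open Set Filter Topology Complex

namespace Pool.Agent.Y310.FB

/-- Height of the boundary point with parameter `t`. -/
noncomputable def Yt (t : ℝ) : ℝ := Real.exp (-t) * (2 + t)

/-- Abscissa of the boundary point with parameter `t`. -/
noncomputable def Xt (t : ℝ) : ℝ := Real.pi / 2 * Real.exp (-t)

lemma Xt_eq {t : ℝ} (ht : 0 ≤ t) : Xt t = φ (Yt t) := by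
  have h1 : |Real.exp (-t)| ≤ 1 := by
    rw [abs_of_pos (Real.exp_pos _), Real.exp_le_one_iff]; linarith
  have h2 : k (Real.exp (-t)) = Yt t := by
    rw [k_eq h1, Real.log_exp, Yt]; ring
  rw [φ, ← h2, θ_k, abs_of_pos (Real.exp_pos _), Xt]

lemma point_mem {t : ℝ} (ht : 0 ≤ t) : ((Xt t : ℝ) : ℂ) + (Yt t : ℝ) * I ∈ frontier D := by
  rw [frontier_D]
  show (((Xt t : ℝ) : ℂ) + (Yt t : ℝ) * I).re = φ (((Xt t : ℝ) : ℂ) + (Yt t : ℝ) * I).im
  have h1 : (((Xt t : ℝ) : ℂ) + (Yt t : ℝ) * I).re = Xt t := by simp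
  have h2 : (((Xt t : ℝ) : ℂ) + (Yt t : ℝ) * I).im = Yt t := by simp
  rw [h1, h2, Xt_eq ht]

lemma Yt_pos {t : ℝ} (ht : 0 ≤ t) : 0 < Yt t := mul_pos (Real.exp_pos _) (by linarith)

lemma Xt_pos (t : ℝ) : 0 < Xt t := by unfold Xt; positivity

lemma Xt_le {t : ℝ} (ht : 0 ≤ t) : Xt t ≤ Yt t := by
  unfold Xt Yt
  rw [mul_comm]
  apply mul_le_mul_of_nonneg_left _ (Real.exp_pos _).le
  linarith [Real.pi_le_four]

lemma lim2 {α : ℝ} (hα : 0 < α) :
    Tendsto (fun t => (2 * Yt t) ^ α * (2 + t)) atTop (𝓝 0) := by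
  have h1 := (tendsto_rpow_mul_exp_neg_mul_atTop_nhds_zero (α + 1) α hα).comp
    (tendsto_atTop_add_const_left atTop 2 tendsto_id)
  have h2 := h1.const_mul (2 ^ α * Real.exp (2 * α))
  rw [mul_zero] at h2
  apply h2.congr'
  filter_upwards [eventually_ge_atTop 0] with t ht
  have hp : (0 : ℝ) < 2 + t := by linarith
  simp only [Function.comp, id]
  unfold Yt
  rw [Real.mul_rpow (by norm_num) (by positivity), Real.mul_rpow (Real.exp_pos _).le hp.le,
    ← Real.exp_mul, Real.rpow_add hp, Real.rpow_one]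
  have h3 : Real.exp (-α * (2 + t)) = Real.exp (-t * α) * Real.exp (-(2 * α)) := by
    rw [← Real.exp_add]; congr 1; ring
  have h4 : Real.exp (2 * α) * Real.exp (-(2 * α)) = 1 := by
    rw [← Real.exp_add]; simp
  rw [h3]
  linear_combination (2 ^ α * (2 + t) ^ α * (2 + t) * Real.exp (-t * α)) * h4

lemma lim1 {α : ℝ} (hα : 0 < α) : Tendsto (fun t => (2 * Yt t) ^ α) atTop (𝓝 0) := by
  apply squeeze_zero' _ _ (lim2 hα)
  · filter_upwards [eventually_ge_atTop 0] with t ht
    have := Yt_pos ht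
    positivity
  · filter_upwards [eventually_ge_atTop 0] with t ht
    have h1 := Yt_pos ht
    have h2 : 0 ≤ (2 * Yt t) ^ α := by positivity
    nlinarith

lemma limY : Tendsto Yt atTop (𝓝 0) := by
  have h := lim1 (α := 1) (by norm_num)
  simp only [Real.rpow_one] at h
  have := h.const_mul (1 / 2 : ℝ)
  simpa using this

lemma no_holder {α ρ : ℝ} (hα : 0 < α) (hρ : 0 < ρ) {c : ℂ} (hc : ‖c‖ = 1) {g : ℝ → ℝ}
    (hgr : ∀ z : ℂ, ‖z‖ < ρ → (z ∈ frontier D ↔ (c * z).im = g (c * z).re))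
    (hg : ContDiffOn ℝ 1 g (Ioo (-ρ) ρ)) {C : ℝ}
    (hC : ∀ s ∈ Ioo (-ρ) ρ, ∀ t ∈ Ioo (-ρ) ρ, |deriv g s - deriv g t| ≤ C * |s - t| ^ α) :
    False := by
  -- `C` may be taken nonnegative
  obtain ⟨C', hC'0, hC'⟩ : ∃ C' : ℝ, 0 ≤ C' ∧
      ∀ s ∈ Ioo (-ρ) ρ, |deriv g s - deriv g 0| ≤ C' * |s| ^ α := by
    refine ⟨max C 0, le_max_right _ _, fun s hs => ?_⟩
    have h1 := hC s hs 0 ⟨by linarith, hρ⟩
    rw [sub_zero] at h1
    exact h1.trans (mul_le_mul_of_nonneg_right (le_max_left _ _) (by positivity))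
  have hdiff : ∀ s ∈ Ioo (-ρ) ρ, HasDerivAt g (deriv g s) s := by
    intro s hs
    exact ((hg.differentiableOn (by norm_num)).differentiableAt
      (isOpen_Ioo.mem_nhds hs)).hasDerivAt
  have h00 : g 0 = 0 := by
    have h1 : (0 : ℂ) ∈ frontier D := by
      rw [frontier_D]
      simp [φ_zero]
    have h2 := (hgr 0 (by simpa using hρ)).1 h1
    simpa using h2.symm
  set γ : ℝ := deriv g 0 with hγ
  have htaylor : ∀ s ∈ Ioo (-ρ) ρ, |g s - γ * s| ≤ C' * |s| ^ α * |s| := by
    intro s hs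
    rcases lt_trichotomy s 0 with h | h | h
    · obtain ⟨ξ, hξ, hξ2⟩ := exists_deriv_eq_slope g h
        (fun x hx => (hdiff x ⟨by linarith [hs.1, hx.1], by linarith [hx.2]⟩).continuousAt.continuousWithinAt)
        (fun x hx => (hdiff x ⟨by linarith [hs.1, hx.1], by linarith [hx.2]⟩).differentiableAt.differentiableWithinAt)
      have h1 : g s - γ * s = (deriv g ξ - γ) * s := by
        rw [hξ2, h00]
        have : s ≠ 0 := h.ne
        field_simp
        ring
      rw [h1, abs_mul]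
      apply mul_le_mul_of_nonneg_right _ (abs_nonneg s)
      refine (hC' ξ ⟨by linarith [hs.1, hξ.1], by linarith [hξ.2]⟩).trans ?_
      apply mul_le_mul_of_nonneg_left _ hC'0
      apply Real.rpow_le_rpow (abs_nonneg _) _ hα.le
      rw [abs_of_neg hξ.2, abs_of_neg h]; linarith [hξ.1]
    · subst h; simp [h00]
    · obtain ⟨ξ, hξ, hξ2⟩ := exists_deriv_eq_slope g h
        (fun x hx => (hdiff x ⟨by linarith [hx.1], by linarith [hs.2, hx.2]⟩).continuousAt.continuousWithinAt)
        (fun x hx => (hdiff x ⟨by linarith [hx.1], by linarith [hs.2, hx.2]⟩).differentiableAt.differentiableWithinAt)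
      have h1 : g s - γ * s = (deriv g ξ - γ) * s := by
        rw [hξ2, h00]
        have : s ≠ 0 := h.ne'
        field_simp
        ring
      rw [h1, abs_mul]
      apply mul_le_mul_of_nonneg_right _ (abs_nonneg s)
      refine (hC' ξ ⟨by linarith [hξ.1], by linarith [hs.2, hξ.2]⟩).trans ?_
      apply mul_le_mul_of_nonneg_left _ hC'0
      apply Real.rpow_le_rpow (abs_nonneg _) _ hα.le
      rw [abs_of_pos hξ.1, abs_of_pos h]; linarith [hξ.2]
  set a : ℝ := -c.im with ha
  set b : ℝ := c.re with hb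
  have hab : a ^ 2 + b ^ 2 = 1 := by
    have : ‖c‖ ^ 2 = 1 := by rw [hc]; norm_num
    rw [← normSq_eq_norm_sq, normSq_apply] at this
    rw [ha, hb]; linarith
  have ha1 : |a| ≤ 1 := by
    rw [abs_le]; constructor <;> nlinarith [sq_nonneg b, sq_nonneg a]
  have hb1 : |b| ≤ 1 := by
    rw [abs_le]; constructor <;> nlinarith [sq_nonneg b, sq_nonneg a]
  -- the main inequality
  have hmain : ∀ᶠ t in atTop, |(b - γ * a) * Yt t - (a + γ * b) * Xt t| ≤
      C' * (2 * Yt t) ^ α * (2 * Yt t) := by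
    have hev : ∀ᶠ t in atTop, Yt t < ρ / 2 := limY.eventually (gt_mem_nhds (by linarith))
    filter_upwards [hev, eventually_ge_atTop 0] with t ht ht0
    have hX := Xt_pos t
    have hY := Yt_pos ht0
    have hXY := Xt_le ht0
    set z : ℂ := ((Xt t : ℝ) : ℂ) + (Yt t : ℝ) * I with hz
    have hzre : z.re = Xt t := by simp [hz]
    have hzim : z.im = Yt t := by simp [hz]
    have hzn : ‖z‖ < ρ := by
      have h1 := Complex.norm_le_abs_re_add_abs_im z
      rw [hzre, hzim, abs_of_pos hX, abs_of_pos hY] at h1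
      linarith
    have h1 := (hgr z hzn).1 (point_mem ht0)
    have hre : (c * z).re = a * Yt t + b * Xt t := by
      rw [mul_re, hzre, hzim, ha, hb]; ring
    have him : (c * z).im = b * Yt t - a * Xt t := by
      rw [mul_im, hzre, hzim, ha, hb]; ring
    rw [hre, him] at h1
    have hs : |a * Yt t + b * Xt t| ≤ 2 * Yt t := by
      have h2 := abs_add_le (a * Yt t) (b * Xt t)
      rw [abs_mul, abs_mul, abs_of_pos hX, abs_of_pos hY] at h2
      nlinarith
    have hsm : a * Yt t + b * Xt t ∈ Ioo (-ρ) ρ := by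
      rw [mem_Ioo, ← abs_lt]; linarith
    have h3 := htaylor _ hsm
    rw [← h1] at h3
    have h4 : (b - γ * a) * Yt t - (a + γ * b) * Xt t =
        b * Yt t - a * Xt t - γ * (a * Yt t + b * Xt t) := by ring
    rw [h4]
    refine h3.trans ?_
    apply mul_le_mul _ hs (abs_nonneg _) (by positivity)
    apply mul_le_mul_of_nonneg_left _ hC'0
    exact Real.rpow_le_rpow (abs_nonneg _) hs hα.le
  -- `b = γ a`
  have hXY0 : Tendsto (fun t => Xt t / Yt t) atTop (𝓝 0) := by
    have h1 : Tendsto (fun t : ℝ => Real.pi / 2 * (2 + t)⁻¹) atTop (𝓝 (Real.pi / 2 * 0)) :=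
      (tendsto_inv_atTop_zero.comp
        (tendsto_atTop_add_const_left atTop 2 tendsto_id)).const_mul _
    rw [mul_zero] at h1
    apply h1.congr
    intro t
    unfold Xt Yt
    have := Real.exp_pos (-t)
    rw [mul_div_assoc, div_mul_eq_div_div, div_self this.ne', one_div]
  have hba : b - γ * a = 0 := by
    have h1 : Tendsto (fun t => |a + γ * b| * (Xt t / Yt t) + C' * (2 * Yt t) ^ α * 2) atTop
        (𝓝 (|a + γ * b| * 0 + C' * 0 * 2)) :=
      (hXY0.const_mul _).add (((lim1 hα).const_mul C').mul_const 2)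
    rw [mul_zero, mul_zero, zero_mul, add_zero] at h1
    have h2 : |b - γ * a| ≤ 0 := by
      apply ge_of_tendsto h1
      filter_upwards [hmain, eventually_ge_atTop 0] with t ht ht0
      have hX := Xt_pos t
      have hY := Yt_pos ht0
      have h3 : |b - γ * a| * Yt t ≤ |a + γ * b| * Xt t + C' * (2 * Yt t) ^ α * (2 * Yt t) := by
        have h4 : (b - γ * a) * Yt t = ((b - γ * a) * Yt t - (a + γ * b) * Xt t) +
          (a + γ * b) * Xt t := by ring
        have h5 := abs_add_le ((b - γ * a) * Yt t - (a + γ * b) * Xt t) ((a + γ * b) * Xt t)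
        rw [← h4, abs_mul, abs_mul, abs_of_pos hX, abs_of_pos hY] at h5
        linarith
      have h6 : (|a + γ * b| * (Xt t / Yt t) + C' * (2 * Yt t) ^ α * 2) * Yt t =
          |a + γ * b| * Xt t + C' * (2 * Yt t) ^ α * (2 * Yt t) := by
        field_simp
      rw [← h6] at h3
      exact le_of_mul_le_mul_right h3 hY
    exact abs_eq_zero.1 (le_antisymm h2 (abs_nonneg _))
  -- contradiction
  have hK : 0 < |a + γ * b| := by
    rw [abs_pos]
    intro h
    have hb2 : b = γ * a := by linarith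
    have h2 : a * (1 + γ ^ 2) = 0 := by
      have : a + γ * b = a * (1 + γ ^ 2) := by rw [hb2]; ring
      rw [← this]; exact h
    rcases mul_eq_zero.1 h2 with h3 | h3
    · rw [h3, mul_zero] at hb2
      rw [h3, hb2] at hab
      norm_num at hab
    · nlinarith [sq_nonneg γ]
  have hlim : Tendsto (fun t => C' * ((2 * Yt t) ^ α * (2 + t)) * (2 / (Real.pi / 2))) atTop
      (𝓝 (C' * 0 * (2 / (Real.pi / 2)))) :=
    ((lim2 hα).const_mul C').mul_const _
  rw [mul_zero, zero_mul] at hlim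
  have hfin : |a + γ * b| ≤ 0 := by
    apply ge_of_tendsto hlim
    filter_upwards [hmain, eventually_ge_atTop 0] with t ht ht0
    rw [hba, zero_mul, zero_sub, abs_neg, abs_mul, abs_of_pos (Xt_pos t)] at ht
    have hX := Xt_pos t
    have h1 : C' * (2 * Yt t) ^ α * (2 * Yt t) =
        (C' * ((2 * Yt t) ^ α * (2 + t)) * (2 / (Real.pi / 2))) * Xt t := by
      have : 2 * Yt t = (2 + t) * (2 / (Real.pi / 2)) * Xt t := by
        unfold Xt Yt
        field_simp
      calc C' * (2 * Yt t) ^ α * (2 * Yt t)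
          = C' * (2 * Yt t) ^ α * ((2 + t) * (2 / (Real.pi / 2)) * Xt t) := by
            rw [← this]
        _ = _ := by ring
    rw [h1] at ht
    exact le_of_mul_le_mul_right ht hX
  linarith

/-- `D` is connected. -/
lemma D_conn : IsConnected D := by
  refine ⟨⟨1, ?_⟩, ?_⟩
  · show φ _ < _
    simp [φ_zero]
  let R : Set ℂ := (fun x : ℝ => (x : ℂ)) '' Ioi 0
  have hR : IsPreconnected R := isPreconnected_Ioi.image _ continuous_ofReal.continuousOn
  have hRS : R ⊆ D := by
    rintro _ ⟨x, hx, rfl⟩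
    show φ _ < _
    simp only [ofReal_im, ofReal_re, φ_zero]
    exact hx
  apply isPreconnected_of_forall (1 : ℂ)
  intro z hz
  let Vz : Set ℂ := (fun s : ℝ => (z.re : ℂ) + (s * z.im : ℝ) * I) '' Icc 0 1
  have hV : IsPreconnected Vz := isPreconnected_Icc.image _ (by fun_prop)
  have hz0 : 0 < z.re := (φ_nonneg _).trans_lt hz
  have hzR : ((z.re : ℝ) : ℂ) ∈ R := ⟨z.re, hz0, rfl⟩
  refine ⟨R ∪ Vz, union_subset hRS ?_, Or.inl ⟨1, by simp, by simp⟩, Or.inr ?_, ?_⟩
  · rintro _ ⟨s, hs, rfl⟩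
    have habs : |s * z.im| ≤ |z.im| := by
      rw [abs_mul, abs_of_nonneg hs.1]
      have := mul_le_mul_of_nonneg_right hs.2 (abs_nonneg z.im)
      linarith
    show φ _ < _
    have h1 : ((z.re : ℂ) + (s * z.im : ℝ) * I).im = s * z.im := by simp
    have h2 : ((z.re : ℂ) + (s * z.im : ℝ) * I).re = z.re := by simp
    rw [h1, h2]
    exact (φ_mono_abs habs).trans_lt hz
  · exact ⟨1, by norm_num, by simp [re_add_im]⟩
  · have hzV : ((z.re : ℝ) : ℂ) ∈ Vz := ⟨0, by norm_num, by simp⟩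
    exact IsPreconnected.union ((z.re : ℝ) : ℂ) hzR hzV hR hV

lemma I_coord (z : ℂ) : (-I * z).re = z.im ∧ (-I * z).im = - z.re := by
  constructor <;> simp

lemma I_coord' (z : ℂ) : (I * z).re = -z.im ∧ (I * z).im = z.re := by
  constructor <;> simp

end Pool.Agent.Y310.FB
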